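import Mathlib
import Pool.Agent.R440.E154C

/-!
# Integrality of the normalised (154j+15) sums

The proof uses a WZ transformation (`E154.wz`) of the sum, Legendre-type valuation counts at the
primes other than `5`, and at the prime `5` a finite automaton (`33` shifted states) describing the
residues modulo `5` of the transformed sum in terms of the base-`5` digits of `n`.
-/

set_option autoImplicit false

namespace Pool.Agent.Results.MP_1a3e71_nt.Integrality

open Finset Nat

/-- the numbers `c_j = (6j)!/((3j)! (j!)^3)` -/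
noncomputable def c (j : ℕ) : ℚ := ((6 * j)! : ℚ) / (((3 * j)! : ℚ) * (j ! : ℚ) ^ 3)

/-- the numbers `S_n` -/
noncomputable def S (n : ℕ) : ℚ :=
  ∑ j ∈ range n, (154 * (j : ℚ) + 15) * c j * (-32768) ^ (n - 1 - j)

/-- the numbers `a_n` -/
noncomputable def a (n : ℕ) : ℚ := S n / (10 * n * (2 * n + 1) * ((2 * n).choose n : ℚ))

theorem a_eq (n : ℕ) : a n = R440.E154.a n := rfl

/-- Q1. For every `n > 1`: if `2n+1` is not a power of `5` then `(-1)^(n-1) a_n` is a positive
integer; if `2n+1` is a power of `5` then `5 a_n` is an integer not divisible by `5`. -/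
theorem result (n : ℕ) (hn : 1 < n) :
    ((¬ ∃ m : ℕ, 1 ≤ m ∧ 2 * n + 1 = 5 ^ m) → ∃ z : ℤ, (-1) ^ (n - 1) * a n = z ∧ 0 < z) ∧
    ((∃ m : ℕ, 1 ≤ m ∧ 2 * n + 1 = 5 ^ m) → ∃ z : ℤ, 5 * a n = z ∧ ¬ (5 : ℤ) ∣ z) := by
  rw [a_eq]
  have h := R440.E154.main n hn
  refine ⟨fun h1 => h.1 ?_, fun h1 => h.2 ?_⟩
  · rintro ⟨m, hm⟩
    refine h1 ⟨m, ?_, hm⟩
    rcases Nat.eq_zero_or_pos m with h0 | h0
    · subst h0
      simp at hm
      omega
    · exact h0
  · obtain ⟨m, _, hm⟩ := h1
    exact ⟨m, hm⟩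

end Pool.Agent.Results.MP_1a3e71_nt.Integrality
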